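import Pool.Agent.W34.GB.Stm

/-! # N1: the partial sums modulo `p` -/

open Polynomial Pool.Agent.H337R2 Pool.Agent.W34.GB

namespace Pool.Agent.W346.GZ

noncomputable section

lemma H1_unit {p : ℕ} [Fact p.Prime] (x : ℚ) (i : ℕ) (hi : 1 ≤ i) (hx : padicNorm p x = 1) :
    padicNorm p ((p : ℚ) ^ i * (1 / x ^ i)) ≤ (p : ℚ)⁻¹ := by
  have hp : p.Prime := Fact.out
  have h1 : padicNorm p (x ^ i) = 1 := by
    have h2 : ∀ k : ℕ, padicNorm p (x ^ k) = 1 := by
      intro k
      induction k with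
      | zero => simp
      | succ k ih => rw [pow_succ, padicNorm.mul, ih, hx, one_mul]
    exact h2 i
  have h3 : padicNorm p ((p : ℚ) ^ i) = ((p : ℚ)⁻¹) ^ i := by
    have h2 : ∀ k : ℕ, padicNorm p ((p : ℚ) ^ k) = ((p : ℚ)⁻¹) ^ k := by
      intro k
      induction k with
      | zero => simp
      | succ k ih => rw [pow_succ, padicNorm.mul, ih, padicNorm.padicNorm_p hp.one_lt, pow_succ]
    exact h2 i
  rw [padicNorm.mul, padicNorm.div, h1, h3, padicNorm.one, div_one, mul_one]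
  have h5 : ((p : ℚ)⁻¹) ^ i ≤ ((p : ℚ)⁻¹) ^ 1 := by
    apply pow_le_pow_of_le_one (by positivity) _ hi
    apply inv_le_one_of_one_le₀
    exact_mod_cast hp.one_lt.le
  simpa using h5

lemma H1_j0 {p : ℕ} (hp : p.Prime) (hp50 : 50 ≤ p) (σ : ℕ) (hσ : σ = 1 ∨ σ = 3) :
    4 * j0 σ p + σ = mm σ p * p ∧ j0 σ p < p ∧ p % 2 = 1 := by
  have hodd : p % 2 = 1 := by
    rcases hp.eq_two_or_odd with h | h
    · omega
    · exact h
  unfold j0 mm
  split_ifs with h
  · rcases hσ with rfl | rfl <;> omega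
  · rcases hσ with rfl | rfl <;> omega

lemma H1_quarter {p : ℕ} [Fact p.Prime] (hp50 : 50 ≤ p) (σ : ℕ) (hσ : σ = 1 ∨ σ = 3) (r j i : ℕ) (hr1 : 1 ≤ r)
    (hr2 : r ≤ p) (hi : 1 ≤ i) :
    padicNorm p ((p : ℚ) ^ i * ∑ t ∈ Finset.range (r + j * p), 1 / ((t : ℚ) + (σ : ℚ) / 4) ^ i -
      ∑ u ∈ Finset.range (j + d1 σ p r), 1 / ((u : ℚ) + (mm σ p : ℚ) / 4) ^ i) ≤ (p : ℚ)⁻¹ := by
  classical
  have hp : p.Prime := Fact.out
  have hp0 : (p : ℚ) ≠ 0 := by exact_mod_cast hp.ne_zero
  obtain ⟨hJ, hJp, hodd⟩ := H1_j0 hp hp50 σ hσ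
  have hm : mm σ p = 1 ∧ p % 4 = σ ∨ mm σ p = 3 ∧ p % 4 = 4 - σ := by
    unfold mm
    split_ifs with h
    · exact Or.inl ⟨rfl, h⟩
    · right
      refine ⟨rfl, ?_⟩
      rcases hσ with rfl | rfl <;> omega
  set J := j0 σ p with hJdef
  set M := mm σ p with hMdef
  set f : ℕ → ℚ := fun t => (p : ℚ) ^ i * (1 / ((t : ℚ) + (σ : ℚ) / 4) ^ i) with hf
  have h1 : (p : ℚ) ^ i * ∑ t ∈ Finset.range (r + j * p), 1 / ((t : ℚ) + (σ : ℚ) / 4) ^ i =
      ∑ t ∈ Finset.range (r + j * p), f t := by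
    rw [Finset.mul_sum]
  have h2 := Finset.sum_filter_add_sum_filter_not (Finset.range (r + j * p)) (fun t => p ∣ 4 * t + σ) f
  have hdl : ∀ u : ℕ, J + u * p < r + j * p ↔ u < j + d1 σ p r := by
    intro u
    unfold d1
    rw [← hJdef]
    split_ifs with hd
    · constructor
      · intro h
        by_contra hc
        have h3 : (j + 1) * p ≤ u * p := Nat.mul_le_mul_right p (by omega)
        have h4 : (j + 1) * p = j * p + p := by ring
        omega
      · intro h
        have h3 : u * p ≤ j * p := Nat.mul_le_mul_right p (by omega)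
        omega
    · constructor
      · intro h
        by_contra hc
        have h3 : j * p ≤ u * p := Nat.mul_le_mul_right p (by omega)
        omega
      · intro h
        have h3 : (u + 1) * p ≤ j * p := Nat.mul_le_mul_right p (by omega)
        have h4 : (u + 1) * p = u * p + p := by ring
        omega
  have h3 : ∑ t ∈ (Finset.range (r + j * p)).filter (fun t => p ∣ 4 * t + σ), f t =
      ∑ u ∈ Finset.range (j + d1 σ p r), 1 / ((u : ℚ) + (M : ℚ) / 4) ^ i := by
    symm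
    apply Finset.sum_bij (fun u _ => J + u * p)
    · intro u hu
      rw [Finset.mem_range] at hu
      rw [Finset.mem_filter, Finset.mem_range]
      refine ⟨(hdl u).2 hu, M + 4 * u, ?_⟩
      have e1 : p * (M + 4 * u) = M * p + 4 * (u * p) := by ring
      rw [e1, ← hJ]
      ring
    · intro c₁ _ c₂ _ h
      have h6 : c₁ * p = c₂ * p := by omega
      exact Nat.eq_of_mul_eq_mul_right hp.pos h6
    · intro t ht
      rw [Finset.mem_filter, Finset.mem_range] at ht
      obtain ⟨ht1, c, hc⟩ := ht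
      obtain ⟨q, c0, hc0, rfl⟩ : ∃ q c0, c0 < 4 ∧ c = 4 * q + c0 := ⟨c / 4, c % 4, by omega, by omega⟩
      have e1 : p * (4 * q + c0) = 4 * (q * p) + c0 * p := by ring
      rw [e1] at hc
      have e2 : J + q * p = t := by
        rcases hm with ⟨hm1, hm2⟩ | ⟨hm1, hm2⟩
        · rw [hm1] at hJ
          rcases hσ with rfl | rfl
          · interval_cases c0 <;> omega
          · interval_cases c0 <;> omega
        · rw [hm1] at hJ
          rcases hσ with rfl | rfl
          · interval_cases c0 <;> omega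
          · interval_cases c0 <;> omega
      refine ⟨q, ?_, e2⟩
      rw [Finset.mem_range]
      apply (hdl q).1
      omega
    · intro u _
      rw [hf]
      simp only
      have hJq : 4 * (J : ℚ) + σ = M * p := by exact_mod_cast hJ
      have e3 : (((J + u * p : ℕ) : ℚ)) + (σ : ℚ) / 4 = p * ((u : ℚ) + (M : ℚ) / 4) := by
        push_cast
        linarith
      rw [e3, mul_pow]
      have hpe : (p : ℚ) ^ i ≠ 0 := pow_ne_zero _ hp0
      rw [one_div, one_div, mul_inv, ← mul_assoc, mul_inv_cancel₀ hpe, one_mul]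
  rw [h1, ← h2, h3, add_sub_cancel_left]
  apply padicNorm.sum_le' _ (by positivity)
  intro t ht
  rw [Finset.mem_filter] at ht
  apply H1_unit _ i hi
  have h5 := (padicNorm.nat_eq_one_iff (p := p) (4 * t + σ)).2 ht.2
  have h6 : padicNorm p (4 : ℚ) = 1 := by
    have := (padicNorm.nat_eq_one_iff (p := p) 4).2 (by
      intro h
      have := Nat.le_of_dvd (by norm_num) h
      omega)
    exact_mod_cast this
  have e : (t : ℚ) + (σ : ℚ) / 4 = ((4 * t + σ : ℕ) : ℚ) / 4 := by push_cast; ring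
  rw [e, padicNorm.div, h5, h6, div_one]


lemma H1_half {p : ℕ} [Fact p.Prime] (hp50 : 50 ≤ p) (r j i : ℕ) (hr1 : 1 ≤ r)
    (hr2 : r ≤ p) (hi : 1 ≤ i) :
    padicNorm p ((p : ℚ) ^ i * ∑ t ∈ Finset.range (r + j * p), 1 / ((t : ℚ) + 1 / 2) ^ i -
      ∑ u ∈ Finset.range (j + d2 p r), 1 / ((u : ℚ) + 1 / 2) ^ i) ≤ (p : ℚ)⁻¹ := by
  classical
  have hp : p.Prime := Fact.out
  have hp0 : (p : ℚ) ≠ 0 := by exact_mod_cast hp.ne_zero
  have hodd : p % 2 = 1 := by
    rcases hp.eq_two_or_odd with h | h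
    · omega
    · exact h
  obtain ⟨J, hJ⟩ : ∃ J, J = (p - 1) / 2 := ⟨_, rfl⟩
  have hJ2 : 2 * J + 1 = p := by omega
  set f : ℕ → ℚ := fun t => (p : ℚ) ^ i * (1 / ((t : ℚ) + 1 / 2) ^ i) with hf
  have h1 : (p : ℚ) ^ i * ∑ t ∈ Finset.range (r + j * p), 1 / ((t : ℚ) + 1 / 2) ^ i =
      ∑ t ∈ Finset.range (r + j * p), f t := by
    rw [Finset.mul_sum]
  have h2 := Finset.sum_filter_add_sum_filter_not (Finset.range (r + j * p)) (fun t => p ∣ 2 * t + 1) f
  have hdl : ∀ u : ℕ, J + u * p < r + j * p ↔ u < j + d2 p r := by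
    intro u
    unfold d2
    rw [← hJ]
    split_ifs with hd
    · constructor
      · intro h
        by_contra hc
        have h3 : (j + 1) * p ≤ u * p := Nat.mul_le_mul_right p (by omega)
        have h4 : (j + 1) * p = j * p + p := by ring
        omega
      · intro h
        have h3 : u * p ≤ j * p := Nat.mul_le_mul_right p (by omega)
        omega
    · constructor
      · intro h
        by_contra hc
        have h3 : j * p ≤ u * p := Nat.mul_le_mul_right p (by omega)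
        omega
      · intro h
        have h3 : (u + 1) * p ≤ j * p := Nat.mul_le_mul_right p (by omega)
        have h4 : (u + 1) * p = u * p + p := by ring
        omega
  have h3 : ∑ t ∈ (Finset.range (r + j * p)).filter (fun t => p ∣ 2 * t + 1), f t =
      ∑ u ∈ Finset.range (j + d2 p r), 1 / ((u : ℚ) + 1 / 2) ^ i := by
    symm
    apply Finset.sum_bij (fun u _ => J + u * p)
    · intro u hu
      rw [Finset.mem_range] at hu
      rw [Finset.mem_filter, Finset.mem_range]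
      refine ⟨(hdl u).2 hu, 1 + 2 * u, ?_⟩
      have e1 : p * (1 + 2 * u) = p + 2 * (u * p) := by ring
      rw [e1]
      omega
    · intro c₁ _ c₂ _ h
      have h6 : c₁ * p = c₂ * p := by omega
      exact Nat.eq_of_mul_eq_mul_right hp.pos h6
    · intro t ht
      rw [Finset.mem_filter, Finset.mem_range] at ht
      obtain ⟨ht1, c, hc⟩ := ht
      obtain ⟨q, c0, hc0, rfl⟩ : ∃ q c0, c0 < 2 ∧ c = 2 * q + c0 := ⟨c / 2, c % 2, by omega, by omega⟩
      have e1 : p * (2 * q + c0) = 2 * (q * p) + c0 * p := by ring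
      rw [e1] at hc
      have e2 : J + q * p = t := by
        interval_cases c0 <;> omega
      refine ⟨q, ?_, e2⟩
      rw [Finset.mem_range]
      apply (hdl q).1
      omega
    · intro u _
      rw [hf]
      simp only
      have hJq : 2 * (J : ℚ) + 1 = p := by exact_mod_cast hJ2
      have e3 : (((J + u * p : ℕ) : ℚ)) + 1 / 2 = p * ((u : ℚ) + 1 / 2) := by
        push_cast
        linarith
      rw [e3, mul_pow]
      have hpe : (p : ℚ) ^ i ≠ 0 := pow_ne_zero _ hp0
      have hx : ((u : ℚ) + 1 / 2) ^ i ≠ 0 := pow_ne_zero _ (by positivity)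
      rw [mul_one_div, ← div_div, div_self hpe]
  rw [h1, ← h2, h3, add_sub_cancel_left]
  apply padicNorm.sum_le' _ (by positivity)
  intro t ht
  rw [Finset.mem_filter] at ht
  apply H1_unit _ i hi
  have h5 := (padicNorm.nat_eq_one_iff (p := p) (2 * t + 1)).2 ht.2
  have h6 : padicNorm p (2 : ℚ) = 1 := by
    have := (padicNorm.nat_eq_one_iff (p := p) 2).2 (by
      intro h
      have := Nat.le_of_dvd (by norm_num) h
      omega)
    exact_mod_cast this
  have e : (t : ℚ) + 1 / 2 = ((2 * t + 1 : ℕ) : ℚ) / 2 := by push_cast; ring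
  rw [e, padicNorm.div, h5, h6, div_one]

lemma H1_int {p : ℕ} [Fact p.Prime] (hp50 : 50 ≤ p) (r j i : ℕ) (hr1 : 1 ≤ r) (hr2 : r ≤ p) (hi : 1 ≤ i) :
    padicNorm p ((p : ℚ) ^ i * ∑ t ∈ Finset.Ico 1 (r + j * p + KK p), 1 / (t : ℚ) ^ i -
      ∑ u ∈ Finset.Ico 1 (j + 1 + d3 p r), 1 / (u : ℚ) ^ i) ≤ (p : ℚ)⁻¹ := by
  classical
  have hp : p.Prime := Fact.out
  have hp0 : (p : ℚ) ≠ 0 := by exact_mod_cast hp.ne_zero
  have hK : KK p = p / 3 := rfl
  set f : ℕ → ℚ := fun t => (p : ℚ) ^ i * (1 / (t : ℚ) ^ i) with hf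
  have h1 : (p : ℚ) ^ i * ∑ t ∈ Finset.Ico 1 (r + j * p + KK p), 1 / (t : ℚ) ^ i =
      ∑ t ∈ Finset.Ico 1 (r + j * p + KK p), f t := by
    rw [Finset.mul_sum]
  have h2 := Finset.sum_filter_add_sum_filter_not (Finset.Ico 1 (r + j * p + KK p)) (fun t => p ∣ t) f
  have hdl : ∀ u : ℕ, u * p < r + j * p + KK p ↔ u < j + 1 + d3 p r := by
    intro u
    unfold d3
    split_ifs with hd
    · constructor
      · intro h
        by_contra hc
        have h3 : (j + 2) * p ≤ u * p := Nat.mul_le_mul_right p (by omega)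
        have h4 : (j + 2) * p = j * p + 2 * p := by ring
        omega
      · intro h
        have h3 : u * p ≤ (j + 1) * p := Nat.mul_le_mul_right p (by omega)
        have h4 : (j + 1) * p = j * p + p := by ring
        omega
    · constructor
      · intro h
        by_contra hc
        have h3 : (j + 1) * p ≤ u * p := Nat.mul_le_mul_right p (by omega)
        have h4 : (j + 1) * p = j * p + p := by ring
        omega
      · intro h
        have h3 : u * p ≤ j * p := Nat.mul_le_mul_right p (by omega)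
        omega
  have h3 : ∑ t ∈ (Finset.Ico 1 (r + j * p + KK p)).filter (fun t => p ∣ t), f t =
      ∑ u ∈ Finset.Ico 1 (j + 1 + d3 p r), 1 / (u : ℚ) ^ i := by
    symm
    apply Finset.sum_bij (fun u _ => p * u)
    · intro u hu
      rw [Finset.mem_Ico] at hu
      rw [Finset.mem_filter, Finset.mem_Ico]
      refine ⟨⟨Nat.mul_pos hp.pos hu.1, ?_⟩, dvd_mul_right p u⟩
      rw [mul_comm]
      exact (hdl u).2 hu.2
    · intro c₁ _ c₂ _ h
      exact Nat.eq_of_mul_eq_mul_left hp.pos h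
    · intro t ht
      rw [Finset.mem_filter, Finset.mem_Ico] at ht
      obtain ⟨⟨ht1, ht2⟩, c, rfl⟩ := ht
      refine ⟨c, ?_, rfl⟩
      rw [Finset.mem_Ico]
      constructor
      · by_contra hc
        have : c = 0 := by omega
        subst this
        simp at ht1
      · apply (hdl c).1
        rw [mul_comm]; exact ht2
    · intro u _
      rw [hf]
      simp only
      push_cast
      rw [mul_pow]
      have hpe : (p : ℚ) ^ i ≠ 0 := pow_ne_zero _ hp0
      rw [one_div, one_div, mul_inv, ← mul_assoc, mul_inv_cancel₀ hpe, one_mul]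
  rw [h1, ← h2, h3, add_sub_cancel_left]
  apply padicNorm.sum_le' _ (by positivity)
  intro t ht
  rw [Finset.mem_filter] at ht
  apply H1_unit _ i hi
  exact (padicNorm.nat_eq_one_iff (p := p) t).2 ht.2

/-- the partial sums modulo `p` -/
theorem n1s : N1s := by
  intro p _ hp σ hσ w hw r j i hr1 hr2 _ hi _
  have h1 := H1_quarter (p := p) hp σ hσ r j i hr1 hr2 hi
  have h2 := H1_half (p := p) hp r j i hr1 hr2 hi
  have h3 := H1_int (p := p) hp r j i hr1 hr2 hi
  have hpinv : (0 : ℚ) ≤ (p : ℚ)⁻¹ := by positivity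
  have hw1 : padicNorm p (1 + w) ≤ 1 := by
    refine padicNorm.nonarchimedean.trans (max_le ?_ hw)
    rw [padicNorm.one]
  have h2' : padicNorm p (w * ((p : ℚ) ^ i * ∑ t ∈ Finset.range (r + j * p), 1 / ((t : ℚ) + 1 / 2) ^ i -
      ∑ u ∈ Finset.range (j + d2 p r), 1 / ((u : ℚ) + 1 / 2) ^ i)) ≤ (p : ℚ)⁻¹ := by
    rw [padicNorm.mul]
    calc _ ≤ 1 * (p : ℚ)⁻¹ := mul_le_mul hw h2 (padicNorm.nonneg _) zero_le_one
      _ = _ := one_mul _
  have h3' : padicNorm p ((1 + w) * ((p : ℚ) ^ i * ∑ t ∈ Finset.Ico 1 (r + j * p + KK p), 1 / (t : ℚ) ^ i -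
      ∑ u ∈ Finset.Ico 1 (j + 1 + d3 p r), 1 / (u : ℚ) ^ i)) ≤ (p : ℚ)⁻¹ := by
    rw [padicNorm.mul]
    calc _ ≤ 1 * (p : ℚ)⁻¹ := mul_le_mul hw1 h3 (padicNorm.nonneg _) zero_le_one
      _ = _ := one_mul _
  have e : (p : ℚ) ^ i * fw σ (KK p) w i (r + j * p) - fl (mm σ p) (d1 σ p r) (d2 p r) (d3 p r) w i j =
      ((p : ℚ) ^ i * ∑ t ∈ Finset.range (r + j * p), 1 / ((t : ℚ) + (σ : ℚ) / 4) ^ i -
      ∑ u ∈ Finset.range (j + d1 σ p r), 1 / ((u : ℚ) + (mm σ p : ℚ) / 4) ^ i) +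
      (w * ((p : ℚ) ^ i * ∑ t ∈ Finset.range (r + j * p), 1 / ((t : ℚ) + 1 / 2) ^ i -
      ∑ u ∈ Finset.range (j + d2 p r), 1 / ((u : ℚ) + 1 / 2) ^ i)) -
      ((1 + w) * ((p : ℚ) ^ i * ∑ t ∈ Finset.Ico 1 (r + j * p + KK p), 1 / (t : ℚ) ^ i -
      ∑ u ∈ Finset.Ico 1 (j + 1 + d3 p r), 1 / (u : ℚ) ^ i)) := by
    unfold fw fl
    ring
  rw [e]
  exact (padicNorm.sub).trans (max_le (padicNorm.nonarchimedean.trans (max_le h1 h2')) h3')

end

end Pool.Agent.W346.GZ
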