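import Pool.Agent.W34.GB.Stm

/-! # N3: the diagonal blocks -/

open Polynomial Pool.Agent.H337R2 Pool.Agent.W34.GB

namespace Pool.Agent.W346.GZ

set_option linter.unusedSectionVars false

noncomputable section

namespace H3

variable {p : ℕ} [hp : Fact p.Prime]

theorem p_pos_ : (0 : ℚ) < p := by exact_mod_cast hp.out.pos

theorem p_one_ : (1 : ℚ) ≤ p := by exact_mod_cast hp.out.one_lt.le

theorem nrm_pow_ (x : ℚ) (n : ℕ) : padicNorm p (x ^ n) = padicNorm p x ^ n := by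
  induction n with
  | zero => rw [pow_zero, pow_zero, padicNorm.one]
  | succ n ih => rw [pow_succ, padicNorm.mul, ih, pow_succ]

theorem nadd {a b c : ℚ} (ha : padicNorm p a ≤ c) (hb : padicNorm p b ≤ c) :
    padicNorm p (a + b) ≤ c := padicNorm.nonarchimedean.trans (max_le ha hb)

theorem nsub {a b c : ℚ} (ha : padicNorm p a ≤ c) (hb : padicNorm p b ≤ c) :
    padicNorm p (a - b) ≤ c := padicNorm.sub.trans (max_le ha hb)

theorem nmul {a b x y : ℚ} (ha : padicNorm p a ≤ x) (hb : padicNorm p b ≤ y) :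
    padicNorm p (a * b) ≤ x * y := by
  rw [padicNorm.mul]
  exact mul_le_mul ha hb (padicNorm.nonneg _) ((padicNorm.nonneg _).trans ha)

theorem norm_ppow (m : ℕ) : padicNorm p ((p : ℚ) ^ m) = (p : ℚ) ^ (-(m : ℤ)) := by
  rw [nrm_pow_, padicNorm.padicNorm_p_of_prime, inv_pow, zpow_neg, zpow_natCast]

theorem norm_pz (z : ℤ) : padicNorm p ((p : ℚ) ^ z) = (p : ℚ) ^ (-z) := by
  obtain ⟨n, rfl | rfl⟩ := z.eq_nat_or_neg
  · rw [zpow_natCast, norm_ppow]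
  · rw [zpow_neg, zpow_natCast, ← one_div, padicNorm.div, norm_ppow, padicNorm.one, zpow_neg,
      one_div, inv_inv, neg_neg, zpow_natCast]

theorem inv0 : (0 : ℚ) ≤ (p : ℚ)⁻¹ := inv_nonneg.2 p_pos_.le

/-! ### integrality -/

theorem norm_nat_unit {m : ℕ} (h1 : 0 < m) (h2 : m < p) : padicNorm p (m : ℚ) = 1 := by
  rw [padicNorm.nat_eq_one_iff]
  intro h
  have := Nat.le_of_dvd h1 h
  omega

theorem norm_q {m0 u i : ℕ} (h50 : 50 ≤ p) (h1 : 0 < m0) (h2 : m0 ≤ 3) (hu : u ≤ 8) :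
    padicNorm p (1 / ((u : ℚ) + (m0 : ℚ) / 4) ^ i) = 1 := by
  have e : (u : ℚ) + (m0 : ℚ) / 4 = ((4 * u + m0 : ℕ) : ℚ) / ((4 : ℕ) : ℚ) := by
    push_cast
    ring
  rw [e, padicNorm.div, nrm_pow_, padicNorm.div, norm_nat_unit (by omega) (by omega),
    norm_nat_unit (by omega) (by omega), padicNorm.one, one_div_one, one_pow, one_div_one]

theorem norm_hf {u i : ℕ} (h50 : 50 ≤ p) (hu : u ≤ 8) :
    padicNorm p (1 / ((u : ℚ) + 1 / 2) ^ i) = 1 := by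
  have e : (u : ℚ) + 1 / 2 = ((2 * u + 1 : ℕ) : ℚ) / ((2 : ℕ) : ℚ) := by
    push_cast
    ring
  rw [e, padicNorm.div, nrm_pow_, padicNorm.div, norm_nat_unit (by omega) (by omega),
    norm_nat_unit (by omega) (by omega), padicNorm.one, one_div_one, one_pow, one_div_one]

theorem one_add_norm {w : ℚ} (hw : padicNorm p w ≤ 1) : padicNorm p (1 + w) ≤ 1 :=
  nadd (by rw [padicNorm.one]) hw

theorem fl_norm {m0 a b c i j : ℕ} {w : ℚ} (hw : padicNorm p w ≤ 1) (h50 : 50 ≤ p) (h1 : 0 < m0)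
    (h2 : m0 ≤ 3) (ha : a ≤ 1) (hb : b ≤ 1) (hc : c ≤ 1)
    (hj : j ≤ 1) : padicNorm p (fl m0 a b c w i j) ≤ 1 := by
  unfold fl
  refine nsub (nadd ?_ ?_) ?_
  · apply padicNorm.sum_le' _ zero_le_one
    intro u hu
    rw [Finset.mem_range] at hu
    exact (norm_q h50 h1 h2 (by omega)).le
  · have := nmul (p := p) hw (y := 1) (b := ∑ u ∈ Finset.range (j + b), 1 / ((u : ℚ) + 1 / 2) ^ i) (by
      apply padicNorm.sum_le' _ zero_le_one
      intro u hu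
      rw [Finset.mem_range] at hu
      exact (norm_hf h50 (by omega)).le)
    rwa [one_mul] at this
  · have := nmul (p := p) (one_add_norm hw) (y := 1)
      (b := ∑ u ∈ Finset.Ico 1 (j + 1 + c), 1 / (u : ℚ) ^ i) (by
      apply padicNorm.sum_le' _ zero_le_one
      intro u hu
      rw [Finset.mem_Ico] at hu
      rw [padicNorm.div, nrm_pow_, norm_nat_unit (by omega) (by omega), padicNorm.one,
        one_pow, one_div_one])
    rwa [one_mul] at this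

theorem mm_pos (σ : ℕ) : 0 < mm σ p := by
  unfold mm
  split_ifs <;> norm_num

theorem mm_le (σ : ℕ) : mm σ p ≤ 3 := by
  unfold mm
  split_ifs <;> norm_num

theorem d1_le (σ r : ℕ) : d1 σ p r ≤ 1 := by
  unfold d1
  split_ifs <;> norm_num

theorem d2_le (r : ℕ) : d2 p r ≤ 1 := by
  unfold d2
  split_ifs <;> norm_num

theorem d3_le (r : ℕ) : d3 p r ≤ 1 := by
  unfold d3
  split_ifs <;> norm_num

theorem fl_norm' {w : ℚ} (hw : padicNorm p w ≤ 1) (h50 : 50 ≤ p) (σ r i j : ℕ) (hj : j ≤ 1) :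
    padicNorm p (fl (mm σ p) (d1 σ p r) (d2 p r) (d3 p r) w i j) ≤ 1 :=
  fl_norm hw h50 (mm_pos σ) (mm_le σ) (d1_le σ r) (d2_le r) (d3_le r) hj

theorem PB1 (k r' : ℕ) : PB p 1 1 (TS (-(k : ℚ)) (X + C (r' : ℚ))) := by
  rw [TS_lin]
  apply PB.linX zero_le_one zero_le_one
  · have := padicNorm.of_int (p := p) (-(k : ℤ) + r')
    push_cast at this
    exact this
  · norm_num

theorem PB_prod (k a : ℕ) (s : Finset ℕ) :
    PB p 1 1 (TS (-(k : ℚ)) (∏ r' ∈ s, (X + C (r' : ℚ)) ^ a)) := by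
  rw [map_prod]
  simp only [map_pow]
  have h := PB.prod (p := p) s (fun _ => (1 : ℚ) ^ a)
    (fun r' => (TS (-(k : ℚ)) (X + C (r' : ℚ))) ^ a) zero_le_one
    (fun _ _ => pow_nonneg zero_le_one _) (fun r' _ => PB.pow zero_le_one zero_le_one (PB1 k r') a)
  simpa using h

/-! ### splitting the sum over the poles -/

theorem sum_Icc' (N : ℕ) (g : ℕ → ℚ) :
    ∑ k ∈ Finset.Icc 1 N, g k = ∑ k ∈ Finset.range N, g (k + 1) := by
  induction N with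
  | zero => simp
  | succ N ih => rw [Finset.sum_Icc_succ_top (by omega), ih, Finset.sum_range_succ]

theorem sum_blocks (p m : ℕ) (g : ℕ → ℚ) :
    ∑ k ∈ Finset.Icc 1 (m * p), g k =
      ∑ s ∈ Finset.Icc 1 p, ∑ j ∈ Finset.range m, g (s + j * p) := by
  rw [Finset.sum_comm]
  induction m with
  | zero => simp
  | succ m ih =>
    rw [Finset.sum_range_succ, ← ih, sum_Icc', sum_Icc', sum_Icc', Nat.succ_mul,
      Finset.sum_range_add]
    congr 1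
    refine Finset.sum_congr rfl fun x _ => ?_
    congr 1
    ring

/-- statement of `N1s` for one prime -/
def H1st (p σ : ℕ) (w : ℚ) : Prop := ∀ r j i : ℕ, 1 ≤ r → r ≤ p → j ≤ 1 → 1 ≤ i → i ≤ 3 →
    padicNorm p ((p : ℚ) ^ i * fw σ (KK p) w i (r + j * p) -
      fl (mm σ p) (d1 σ p r) (d2 p r) (d3 p r) w i j) ≤ (p : ℚ)⁻¹

/-- statement of `N2b` for one prime -/
def H2b (p : ℕ) : Prop := ∀ r a j i : ℕ, 1 ≤ r → r ≤ p → j ≤ 1 → 1 ≤ i → i ≤ 3 →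
    ∀ F : ℚ[X], PB p 1 1 (TS (-((r + j * p : ℕ) : ℚ)) F) →
    padicNorm p (pa (sN p) m3 ((X + C (r : ℚ)) ^ a * F) (r + j * p) i) ≤
      (p : ℚ) ^ (6 - (a : ℤ) - i)

theorem fw_norm {σ : ℕ} {w : ℚ} (hw : padicNorm p w ≤ 1) (h50 : 50 ≤ p) (h1 : H1st p σ w)
    {r j i : ℕ} (hr1 : 1 ≤ r) (hr2 : r ≤ p)
    (hj : j ≤ 1) (hi : 1 ≤ i) (hi3 : i ≤ 3) :
    padicNorm p (fw σ (KK p) w i (r + j * p)) ≤ (p : ℚ) ^ i := by
  have h2 := h1 r j i hr1 hr2 hj hi hi3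
  have h3 := fl_norm' (p := p) hw h50 σ r i j hj
  have h4 : padicNorm p ((p : ℚ) ^ i * fw σ (KK p) w i (r + j * p)) ≤ 1 := by
    have h5 : (p : ℚ) ^ i * fw σ (KK p) w i (r + j * p) =
        ((p : ℚ) ^ i * fw σ (KK p) w i (r + j * p) -
          fl (mm σ p) (d1 σ p r) (d2 p r) (d3 p r) w i j) +
          fl (mm σ p) (d1 σ p r) (d2 p r) (d3 p r) w i j := by ring
    rw [h5]
    refine nadd (h2.trans ?_) h3
    exact inv_le_one_of_one_le₀ p_one_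
  rw [padicNorm.mul, norm_ppow, zpow_neg, zpow_natCast] at h4
  have hpi : (0 : ℚ) < (p : ℚ) ^ i := pow_pos p_pos_ _
  rwa [inv_mul_le_iff₀ hpi, mul_one] at h4

theorem scal {e i : ℕ} (a : ℚ) :
    (p : ℚ) ^ (6 - (e : ℤ)) * a = (p : ℚ) ^ i * (a / (p : ℚ) ^ ((e : ℤ) + (i : ℕ) - 6)) := by
  have hp0 : (p : ℚ) ≠ 0 := p_pos_.ne'
  rw [mul_div_assoc', eq_div_iff (zpow_ne_zero _ hp0), mul_right_comm, ← zpow_add₀ hp0]
  congr 1
  rw [← zpow_natCast]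
  congr 1
  ring

/-- the contribution of one pole of the class `r` -/
theorem near_term {σ : ℕ} {w : ℚ} (hw0 : padicNorm p w ≤ 1) (h50 : 50 ≤ p) (h1 : H1st p σ w)
    (hb : H2b p) (u v c : ℚ)
    (hu : padicNorm p u ≤ 1) (hv : padicNorm p v ≤ 1) {r e j : ℕ} (hr1 : 1 ≤ r) (hr2 : r ≤ p)
    (hj : j ≤ 1)
    (hw : ∀ i : ℕ, 1 ≤ i → i ≤ 3 →
      padicNorm p (pa (sN p) m3 ((X + C (r : ℚ)) ^ e * oth p r 6) (r + j * p) i /
        (p : ℚ) ^ ((e : ℤ) + i - 6) - c * PowerSeries.coeff (3 - i) (ser j e)) ≤ (p : ℚ)⁻¹) :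
    padicNorm p ((p : ℚ) ^ (6 - (e : ℤ)) *
      (pa (sN p) m3 ((X + C (r : ℚ)) ^ e * oth p r 6) (r + j * p) 3 *
        (v - fw σ (KK p) w 3 (r + j * p)) +
      pa (sN p) m3 ((X + C (r : ℚ)) ^ e * oth p r 6) (r + j * p) 2 *
        (u - fw σ (KK p) w 2 (r + j * p)) -
      pa (sN p) m3 ((X + C (r : ℚ)) ^ e * oth p r 6) (r + j * p) 1 *
        fw σ (KK p) w 1 (r + j * p)) +
      c * (PowerSeries.coeff 0 (ser j e) * fl (mm σ p) (d1 σ p r) (d2 p r) (d3 p r) w 3 j +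
        PowerSeries.coeff 1 (ser j e) * fl (mm σ p) (d1 σ p r) (d2 p r) (d3 p r) w 2 j +
        PowerSeries.coeff 2 (ser j e) * fl (mm σ p) (d1 σ p r) (d2 p r) (d3 p r) w 1 j)) ≤
      (p : ℚ)⁻¹ := by
  have hPB : PB p 1 1 (TS (-((r + j * p : ℕ) : ℚ)) (oth p r 6)) := PB_prod _ _ _
  have hA : ∀ i : ℕ, 1 ≤ i → i ≤ 3 →
      padicNorm p (pa (sN p) m3 ((X + C (r : ℚ)) ^ e * oth p r 6) (r + j * p) i /
        (p : ℚ) ^ ((e : ℤ) + i - 6)) ≤ 1 := by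
    intro i hi1 hi2
    have h2 := hb r e j i hr1 hr2 hj hi1 hi2 (oth p r 6) hPB
    rw [padicNorm.div, norm_pz, div_le_one (zpow_pos p_pos_ _)]
    refine h2.trans (le_of_eq ?_)
    congr 1
    ring
  have hA3 := hA 3 (by norm_num) le_rfl
  have hA2 := hA 2 (by norm_num) (by norm_num)
  have hA1 := hA 1 le_rfl (by norm_num)
  have hW3 := hw 3 (by norm_num) le_rfl
  have hW2 := hw 2 (by norm_num) (by norm_num)
  have hW1 := hw 1 le_rfl (by norm_num)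
  have e3 := scal (p := p) (e := e) (i := 3)
    (pa (sN p) m3 ((X + C (r : ℚ)) ^ e * oth p r 6) (r + j * p) 3)
  have e2 := scal (p := p) (e := e) (i := 2)
    (pa (sN p) m3 ((X + C (r : ℚ)) ^ e * oth p r 6) (r + j * p) 2)
  have e1 := scal (p := p) (e := e) (i := 1)
    (pa (sN p) m3 ((X + C (r : ℚ)) ^ e * oth p r 6) (r + j * p) 1)
  have hf3 := h1 r j 3 hr1 hr2 hj (by norm_num) le_rfl
  have hf2 := h1 r j 2 hr1 hr2 hj (by norm_num) (by norm_num)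
  have hf1 := h1 r j 1 hr1 hr2 hj le_rfl (by norm_num)
  have hl3 := fl_norm' (p := p) hw0 h50 σ r 3 j hj
  have hl2 := fl_norm' (p := p) hw0 h50 σ r 2 j hj
  have hl1 := fl_norm' (p := p) hw0 h50 σ r 1 j hj
  have x3 : 3 - 3 = 0 := rfl
  have x2 : 3 - 2 = 1 := rfl
  have x1 : 3 - 1 = 2 := rfl
  rw [x3] at hW3
  rw [x2] at hW2
  rw [x1] at hW1
  generalize pa (sN p) m3 ((X + C (r : ℚ)) ^ e * oth p r 6) (r + j * p) 3 = a3 at *
  generalize pa (sN p) m3 ((X + C (r : ℚ)) ^ e * oth p r 6) (r + j * p) 2 = a2 at *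
  generalize pa (sN p) m3 ((X + C (r : ℚ)) ^ e * oth p r 6) (r + j * p) 1 = a1 at *
  generalize a3 / (p : ℚ) ^ ((e : ℤ) + (3 : ℕ) - 6) = A3 at *
  generalize a2 / (p : ℚ) ^ ((e : ℤ) + (2 : ℕ) - 6) = A2 at *
  generalize a1 / (p : ℚ) ^ ((e : ℤ) + (1 : ℕ) - 6) = A1 at *
  generalize fw σ (KK p) w 3 (r + j * p) = f3 at *
  generalize fw σ (KK p) w 2 (r + j * p) = f2 at *
  generalize fw σ (KK p) w 1 (r + j * p) = f1 at *
  generalize fl (mm σ p) (d1 σ p r) (d2 p r) (d3 p r) w 3 j = l3 at *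
  generalize fl (mm σ p) (d1 σ p r) (d2 p r) (d3 p r) w 2 j = l2 at *
  generalize fl (mm σ p) (d1 σ p r) (d2 p r) (d3 p r) w 1 j = l1 at *
  generalize PowerSeries.coeff 0 (ser j e) = c0 at *
  generalize PowerSeries.coeff 1 (ser j e) = c1 at *
  generalize PowerSeries.coeff 2 (ser j e) = c2 at *
  have key : (p : ℚ) ^ (6 - (e : ℤ)) * (a3 * (v - f3) + a2 * (u - f2) - a1 * f1) +
        c * (c0 * l3 + c1 * l2 + c2 * l1) =
      A3 * ((p : ℚ) ^ 3 * v) - A3 * ((p : ℚ) ^ 3 * f3 - l3) - (A3 - c * c0) * l3 +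
      (A2 * ((p : ℚ) ^ 2 * u) - A2 * ((p : ℚ) ^ 2 * f2 - l2) - (A2 - c * c1) * l2) -
        A1 * ((p : ℚ) ^ 1 * f1 - l1) - (A1 - c * c2) * l1 := by
    linear_combination (v - f3) * e3 + (u - f2) * e2 - f1 * e1
  rw [key]
  have hle : ∀ {y x : ℚ}, padicNorm p y ≤ 1 → padicNorm p x ≤ (p : ℚ)⁻¹ →
      padicNorm p (y * x) ≤ (p : ℚ)⁻¹ := fun {y x} hy hx => by
    have := nmul hy hx
    rwa [one_mul] at this
  have hle' : ∀ {y x : ℚ}, padicNorm p x ≤ (p : ℚ)⁻¹ → padicNorm p y ≤ 1 →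
      padicNorm p (x * y) ≤ (p : ℚ)⁻¹ := fun {y x} hx hy => by
    have := nmul hx hy
    rwa [mul_one] at this
  have hpu : padicNorm p ((p : ℚ) ^ 2 * u) ≤ (p : ℚ)⁻¹ := by
    have h3 := nmul (norm_ppow (p := p) 2).le hu
    rw [mul_one] at h3
    refine h3.trans ?_
    rw [← zpow_neg_one]
    exact zpow_le_zpow_right₀ p_one_ (by norm_num)
  have hpv : padicNorm p ((p : ℚ) ^ 3 * v) ≤ (p : ℚ)⁻¹ := by
    have h3 := nmul (norm_ppow (p := p) 3).le hv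
    rw [mul_one] at h3
    refine h3.trans ?_
    rw [← zpow_neg_one]
    exact zpow_le_zpow_right₀ p_one_ (by norm_num)
  exact nsub (nsub (nadd (nsub (nsub (hle hA3 hpv) (hle hA3 hf3)) (hle' hW3 hl3))
    (nsub (nsub (hle hA2 hpu) (hle hA2 hf2)) (hle' hW2 hl2))) (hle hA1 hf1)) (hle' hW1 hl1)

/-- three terms -/
theorem three {σ : ℕ} {w : ℚ} (hw0 : padicNorm p w ≤ 1) (h50 : 50 ≤ p) (h1 : H1st p σ w)
    (u v : ℚ) (hu : padicNorm p u ≤ 1) (hv : padicNorm p v ≤ 1) {s j : ℕ}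
    (hs1 : 1 ≤ s) (hs2 : s ≤ p) (hj : j ≤ 1) (z : ℤ) (a3 a2 a1 : ℚ)
    (hb3 : padicNorm p a3 ≤ (p : ℚ) ^ (z - (3 : ℕ))) (hb2 : padicNorm p a2 ≤ (p : ℚ) ^ (z - (2 : ℕ)))
    (hb1 : padicNorm p a1 ≤ (p : ℚ) ^ (z - (1 : ℕ))) :
    padicNorm p (a3 * (v - fw σ (KK p) w 3 (s + j * p)) + a2 * (u - fw σ (KK p) w 2 (s + j * p)) -
      a1 * fw σ (KK p) w 1 (s + j * p)) ≤ (p : ℚ) ^ z := by
  have hf3 := fw_norm (p := p) (i := 3) hw0 h50 h1 hs1 hs2 hj (by norm_num) le_rfl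
  have hf2 := fw_norm (p := p) (i := 2) hw0 h50 h1 hs1 hs2 hj (by norm_num) (by norm_num)
  have hf1 := fw_norm (p := p) (i := 1) hw0 h50 h1 hs1 hs2 hj le_rfl (by norm_num)
  have hp1 : ∀ i : ℕ, (1 : ℚ) ≤ (p : ℚ) ^ i := fun i => one_le_pow₀ p_one_
  have hp0 : (p : ℚ) ≠ 0 := p_pos_.ne'
  have hz : ∀ i : ℕ, (p : ℚ) ^ (z - (i : ℤ)) * (p : ℚ) ^ i = (p : ℚ) ^ z := by
    intro i
    rw [← zpow_natCast (p : ℚ) i, ← zpow_add₀ hp0]
    congr 1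
    ring
  refine nsub (nadd ?_ ?_) ?_
  · exact (nmul hb3 (nsub (hv.trans (hp1 3)) hf3)).trans (le_of_eq (hz 3))
  · exact (nmul hb2 (nsub (hu.trans (hp1 2)) hf2)).trans (le_of_eq (hz 2))
  · exact (nmul hb1 hf1).trans (le_of_eq (hz 1))

/-- the contribution of one pole of another class -/
theorem far_term {σ : ℕ} {w : ℚ} (hw0 : padicNorm p w ≤ 1) (h50 : 50 ≤ p) (h1 : H1st p σ w)
    (hb : H2b p) (u v : ℚ)
    (hu : padicNorm p u ≤ 1) (hv : padicNorm p v ≤ 1) {r s e j : ℕ} (he : e ≤ 4) (hs1 : 1 ≤ s)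
    (hs2 : s ≤ p)
    (hrs : s ≠ r) (hj : j ≤ 1) :
    padicNorm p ((p : ℚ) ^ (6 - (e : ℤ)) *
      (pa (sN p) m3 ((X + C (r : ℚ)) ^ e * oth p r 6) (s + j * p) 3 *
        (v - fw σ (KK p) w 3 (s + j * p)) +
      pa (sN p) m3 ((X + C (r : ℚ)) ^ e * oth p r 6) (s + j * p) 2 *
        (u - fw σ (KK p) w 2 (s + j * p)) -
      pa (sN p) m3 ((X + C (r : ℚ)) ^ e * oth p r 6) (s + j * p) 1 *
        fw σ (KK p) w 1 (s + j * p))) ≤ (p : ℚ)⁻¹ := by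
  have hsm : s ∈ (Finset.Icc 1 p).erase r := by
    rw [Finset.mem_erase, Finset.mem_Icc]
    exact ⟨hrs, hs1, hs2⟩
  have hsplit : (X + C (r : ℚ)) ^ e * oth p r 6 = (X + C (s : ℚ)) ^ 6 *
      ((X + C (r : ℚ)) ^ e * ∏ r' ∈ ((Finset.Icc 1 p).erase r).erase s, (X + C (r' : ℚ)) ^ 6) := by
    unfold oth
    rw [← Finset.mul_prod_erase _ _ hsm]
    ring
  have hPB : PB p 1 1 (TS (-((s + j * p : ℕ) : ℚ)) ((X + C (r : ℚ)) ^ e *
      ∏ r' ∈ ((Finset.Icc 1 p).erase r).erase s, (X + C (r' : ℚ)) ^ 6)) := by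
    rw [map_mul, map_pow]
    have h2 := PB.mul (p := p) zero_le_one (pow_nonneg zero_le_one e) zero_le_one
      (PB.pow zero_le_one zero_le_one (PB1 (p := p) (s + j * p) r) e)
      (PB_prod (p := p) (s + j * p) 6 (((Finset.Icc 1 p).erase r).erase s))
    rwa [one_pow, one_mul] at h2
  have hb3 := hb s 6 j 3 hs1 hs2 hj (by norm_num) le_rfl _ hPB
  have hb2 := hb s 6 j 2 hs1 hs2 hj (by norm_num) (by norm_num) _ hPB
  have hb1 := hb s 6 j 1 hs1 hs2 hj le_rfl (by norm_num) _ hPB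
  rw [← hsplit] at hb1 hb2 hb3
  have hz : (6 : ℤ) - ((6 : ℕ) : ℤ) = 0 := by norm_num
  rw [hz] at hb1 hb2 hb3
  have t := three (p := p) hw0 h50 h1 u v hu hv hs1 hs2 hj 0 _ _ _ hb3 hb2 hb1
  have h4 := nmul (norm_pz (p := p) (6 - (e : ℤ))).le t
  refine h4.trans ?_
  rw [zpow_zero, mul_one, ← zpow_neg_one]
  apply zpow_le_zpow_right₀ p_one_
  omega

/-! ### off-diagonal blocks -/

lemma PBm {f g : PowerSeries ℚ} (hf : PB p 1 1 f) (hg : PB p 1 1 g) : PB p 1 1 (f * g) := by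
  have := PB.mul zero_le_one zero_le_one zero_le_one hf hg
  rwa [mul_one] at this

lemma PBlin (k c l : ℕ) : PB p 1 1 (TS (-(k : ℚ)) ((X + C (c : ℚ)) ^ l)) := by
  rw [map_pow]
  have := PB.pow zero_le_one zero_le_one (PB1 (p := p) k c) l
  rwa [one_pow] at this

lemma oth_split (s c e : ℕ) (hc1 : 1 ≤ c) (hc2 : c ≤ p) (hcs : c ≠ s) :
    oth p s e = (X + C (c : ℚ)) ^ e * ∏ r' ∈ ((Finset.Icc 1 p).erase s).erase c, (X + C (r' : ℚ)) ^ e := by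
  unfold oth
  rw [Finset.mul_prod_erase _ (fun r' : ℕ => (X + C (r' : ℚ)) ^ e)]
  exact Finset.mem_erase.2 ⟨hcs, Finset.mem_Icc.2 ⟨hc1, hc2⟩⟩

/-- vanishing order in the class `c`, with an integral cofactor -/
lemma factor (r s l l' : ℕ) (hrs : r ≠ s) (hl : l < 3) (hl' : l' < 3)
    (c : ℕ) (hc1 : 1 ≤ c) (hc2 : c ≤ p) : ∃ a : ℕ, ∃ F : ℚ[X], l + l' + 1 ≤ a ∧
      ((X + C (r : ℚ)) ^ l * oth p r 3) * ((X + C (s : ℚ)) ^ l' * oth p s 3) = (X + C (c : ℚ)) ^ a * F ∧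
      ∀ k : ℕ, PB p 1 1 (TS (-(k : ℚ)) F) := by
  by_cases hcr : c = r
  · subst hcr
    refine ⟨l + 3, oth p c 3 * ((X + C (s : ℚ)) ^ l' *
      ∏ r' ∈ ((Finset.Icc 1 p).erase s).erase c, (X + C (r' : ℚ)) ^ 3), by omega, ?_, ?_⟩
    · rw [oth_split s c 3 hc1 hc2 hrs, pow_add]
      ring
    · intro k
      rw [map_mul, map_mul]
      exact PBm (PB_prod k 3 _) (PBm (PBlin k s l') (PB_prod k 3 _))
  · by_cases hcs : c = s
    · subst hcs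
      refine ⟨l' + 3, oth p c 3 * ((X + C (r : ℚ)) ^ l *
        ∏ r' ∈ ((Finset.Icc 1 p).erase r).erase c, (X + C (r' : ℚ)) ^ 3), by omega, ?_, ?_⟩
      · rw [oth_split r c 3 hc1 hc2 hcr, pow_add]
        ring
      · intro k
        rw [map_mul, map_mul]
        exact PBm (PB_prod k 3 _) (PBm (PBlin k r l) (PB_prod k 3 _))
    · refine ⟨6, ((X + C (r : ℚ)) ^ l * ∏ r' ∈ ((Finset.Icc 1 p).erase r).erase c, (X + C (r' : ℚ)) ^ 3) *
        ((X + C (s : ℚ)) ^ l' * ∏ r' ∈ ((Finset.Icc 1 p).erase s).erase c, (X + C (r' : ℚ)) ^ 3), by omega, ?_, ?_⟩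
      · rw [oth_split r c 3 hc1 hc2 hcr, oth_split s c 3 hc1 hc2 hcs]
        ring
      · intro k
        rw [map_mul, map_mul, map_mul]
        exact PBm (PBm (PBlin k r l) (PB_prod k 3 _)) (PBm (PBlin k s l') (PB_prod k 3 _))

/-- every pole is `c + j p` with `1 ≤ c ≤ p`, `j ≤ 1` -/
lemma pole (k : ℕ) (hk : k ∈ sN p) : ∃ c j : ℕ, 1 ≤ c ∧ c ≤ p ∧ j ≤ 1 ∧ k = c + j * p := by
  rw [sN, Finset.mem_Icc] at hk
  have hpp : 0 < p := hp.out.pos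
  refine ⟨(k - 1) % p + 1, (k - 1) / p, by omega, ?_, ?_, ?_⟩
  · have := Nat.mod_lt (k - 1) hpp
    omega
  · have h1 : (k - 1) / p < 2 := by
      rw [Nat.div_lt_iff_lt_mul hpp]
      omega
    omega
  · have h1 := Nat.mod_add_div (k - 1) p
    have h2 : (k - 1) / p * p = p * ((k - 1) / p) := Nat.mul_comm _ _
    rw [h2]
    omega

end H3

open H3

theorem N3_of : N1s → N2s → N2b → N3s := by
  intro hN1 hN2 hN2b p _ hp σ hσ w u v hw0 hu hv r hr1 hr2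
  have h1 : H1st p σ w := fun r j i a1 a2 a3 a4 a5 => hN1 p hp σ hσ w hw0 r j i a1 a2 a3 a4 a5
  have hb : H2b p := fun r a j i a1 a2 a3 a4 a5 F hF => hN2b p hp r a j i a1 a2 a3 a4 a5 F hF
  obtain ⟨c, hc1, hc⟩ := hN2 p hp r hr1 hr2
  refine ⟨c, hc1, fun e he => ?_⟩
  have hrm : r ∈ Finset.Icc 1 p := Finset.mem_Icc.2 ⟨hr1, hr2⟩
  have hN : (p : ℚ) ^ (6 - (e : ℤ)) * NL p σ w u v ((X + C (r : ℚ)) ^ e * oth p r 6) -
        c * Fm (mm σ p) (d1 σ p r) (d2 p r) (d3 p r) w e =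
      ∑ j ∈ Finset.range 2, ((p : ℚ) ^ (6 - (e : ℤ)) *
      (pa (sN p) m3 ((X + C (r : ℚ)) ^ e * oth p r 6) (r + j * p) 3 *
        (v - fw σ (KK p) w 3 (r + j * p)) +
      pa (sN p) m3 ((X + C (r : ℚ)) ^ e * oth p r 6) (r + j * p) 2 *
        (u - fw σ (KK p) w 2 (r + j * p)) -
      pa (sN p) m3 ((X + C (r : ℚ)) ^ e * oth p r 6) (r + j * p) 1 *
        fw σ (KK p) w 1 (r + j * p)) +
      c * (PowerSeries.coeff 0 (ser j e) * fl (mm σ p) (d1 σ p r) (d2 p r) (d3 p r) w 3 j +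
        PowerSeries.coeff 1 (ser j e) * fl (mm σ p) (d1 σ p r) (d2 p r) (d3 p r) w 2 j +
        PowerSeries.coeff 2 (ser j e) * fl (mm σ p) (d1 σ p r) (d2 p r) (d3 p r) w 1 j)) +
      ∑ s ∈ (Finset.Icc 1 p).erase r, ∑ j ∈ Finset.range 2, (p : ℚ) ^ (6 - (e : ℤ)) *
      (pa (sN p) m3 ((X + C (r : ℚ)) ^ e * oth p r 6) (s + j * p) 3 *
        (v - fw σ (KK p) w 3 (s + j * p)) +
      pa (sN p) m3 ((X + C (r : ℚ)) ^ e * oth p r 6) (s + j * p) 2 *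
        (u - fw σ (KK p) w 2 (s + j * p)) -
      pa (sN p) m3 ((X + C (r : ℚ)) ^ e * oth p r 6) (s + j * p) 1 *
        fw σ (KK p) w 1 (s + j * p)) := by
    rw [NL_apply]
    unfold xf sN
    rw [sum_blocks, ← Finset.add_sum_erase _ _ hrm, mul_add, Finset.mul_sum, Finset.mul_sum,
      Finset.sum_add_distrib]
    unfold Fm
    rw [← Finset.mul_sum (Finset.range 2) _ c]
    simp only [Finset.mul_sum (Finset.range 2) _ ((p : ℚ) ^ (6 - (e : ℤ)))]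
    ring
  rw [hN]
  refine nadd ?_ ?_
  · apply padicNorm.sum_le' _ inv0
    intro j hj
    rw [Finset.mem_range] at hj
    exact near_term hw0 hp h1 hb u v c hu hv hr1 hr2 (by omega)
      (fun i hi1 hi2 => hc e j i he (by omega) hi1 hi2)
  · apply padicNorm.sum_le' _ inv0
    intro s hs
    rw [Finset.mem_erase, Finset.mem_Icc] at hs
    apply padicNorm.sum_le' _ inv0
    intro j hj
    rw [Finset.mem_range] at hj
    exact far_term hw0 hp h1 hb u v hu hv he hs.2.1 hs.2.2 hs.1 (by omega)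

theorem N4_of : N1s → N2b → N4s := by
  intro hN1 hN2b p _ hp σ hσ w u v hw0 hu hv r s l l' _ _ _ _ hrs hl hl'
  have h1 : H1st p σ w := fun r j i a1 a2 a3 a4 a5 => hN1 p hp σ hσ w hw0 r j i a1 a2 a3 a4 a5
  have hb : H2b p := fun r a j i a1 a2 a3 a4 a5 F hF => hN2b p hp r a j i a1 a2 a3 a4 a5 F hF
  have hp0 : (0 : ℚ) < p := p_pos_
  have hp1 : (1 : ℚ) ≤ p := p_one_
  have key : padicNorm p (NL p σ w u v
      (((X + C (r : ℚ)) ^ l * oth p r 3) * ((X + C (s : ℚ)) ^ l' * oth p s 3))) ≤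
      (p : ℚ) ^ (5 - (l : ℤ) - (l' : ℤ)) := by
    rw [NL_apply]
    unfold xf
    apply padicNorm.sum_le' _ (zpow_nonneg hp0.le _)
    intro k hk
    obtain ⟨c, j, hc1, hc2, hj, rfl⟩ := pole k hk
    obtain ⟨a, F, ha, e, hF⟩ := factor (p := p) r s l l' hrs hl hl' c hc1 hc2
    rw [e]
    have b1 := hb c a j 1 hc1 hc2 hj le_rfl (by norm_num) F (hF _)
    have b2 := hb c a j 2 hc1 hc2 hj (by norm_num) (by norm_num) F (hF _)
    have b3 := hb c a j 3 hc1 hc2 hj (by norm_num) le_rfl F (hF _)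
    have hfin : (p : ℚ) ^ (6 - (a : ℤ)) ≤ (p : ℚ) ^ (5 - (l : ℤ) - (l' : ℤ)) :=
      zpow_le_zpow_right₀ hp1 (by omega)
    exact (three (p := p) hw0 hp h1 u v hu hv hc1 hc2 hj (6 - (a : ℤ)) _ _ _ b3 b2 b1).trans hfin
  rw [padicNorm.mul, norm_pz]
  calc _ ≤ (p : ℚ) ^ (-(6 - (l : ℤ) - (l' : ℤ))) * (p : ℚ) ^ (5 - (l : ℤ) - (l' : ℤ)) :=
        mul_le_mul_of_nonneg_left key (zpow_nonneg hp0.le _)
    _ = (p : ℚ) ^ (-1 : ℤ) := by
        rw [← zpow_add₀ hp0.ne']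
        congr 1
        ring
    _ = (p : ℚ)⁻¹ := zpow_neg_one _

end

end Pool.Agent.W346.GZ
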